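import Pool.Agent.Helper24.EG.Goals

/-!
# Project EG (MP_98cfca_co), packet N3
-/

set_option autoImplicit false

namespace Pool.Agent.Helper22.EG

open Finset Pool.Agent.Helper24.EG

theorem choose_le (n j : ℕ) (h1 : 1 ≤ j) (hj : j < n) :
    ((n - 1).choose (j - 1) : ℝ) ≤ (n : ℝ) ^ j ∧
      ((n - 1).choose (j - 1) : ℝ) ≤ (n : ℝ) ^ (n - j) := by
  have hn : (1 : ℝ) ≤ (n : ℝ) := by
    have : 1 ≤ n := by omega
    exact_mod_cast this
  constructor
  · have h2 : (n - 1).choose (j - 1) ≤ n ^ (j - 1) :=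
      (Nat.choose_le_pow (n - 1) (j - 1)).trans (Nat.pow_le_pow_left (Nat.sub_le n 1) _)
    calc ((n - 1).choose (j - 1) : ℝ) ≤ (n : ℝ) ^ (j - 1) := by exact_mod_cast h2
      _ ≤ (n : ℝ) ^ j := pow_le_pow_right₀ hn (Nat.sub_le j 1)
  · have h3 : (n - 1).choose (j - 1) = (n - 1).choose (n - j) := by
      have h4 := Nat.choose_symm (n := n - 1) (k := n - j) (by omega)
      rw [← h4]
      congr 1
      omega
    have h2 : (n - 1).choose (j - 1) ≤ n ^ (n - j) := by
      rw [h3]
      exact (Nat.choose_le_pow (n - 1) (n - j)).trans (Nat.pow_le_pow_left (Nat.sub_le n 1) _)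
    exact_mod_cast h2

theorem key (α : ℝ) (hα : 0 < α) (n m : ℕ) (hm : 1 ≤ m) (C P : ℝ)
    (hC : C ≤ (n : ℝ) ^ m) (hP : (m : ℝ) * n / 2 ≤ P)
    (hn : (n : ℝ) * Real.exp (-(α * n / 2)) ≤ 1) :
    C * Real.exp (-(α * P)) ≤ n * Real.exp (-(α * n / 2)) := by
  have h0 : (0 : ℝ) ≤ (n : ℝ) * Real.exp (-(α * n / 2)) := by positivity
  calc C * Real.exp (-(α * P)) ≤ (n : ℝ) ^ m * Real.exp (-(α * P)) :=
        mul_le_mul_of_nonneg_right hC (Real.exp_pos _).le
    _ ≤ (n : ℝ) ^ m * Real.exp (-(α * (m * n / 2))) := by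
        apply mul_le_mul_of_nonneg_left _ (by positivity)
        apply Real.exp_le_exp.mpr
        have := mul_le_mul_of_nonneg_left hP hα.le
        linarith
    _ = ((n : ℝ) * Real.exp (-(α * n / 2))) ^ m := by
        rw [mul_pow, ← Real.exp_nat_mul]
        congr 2
        ring
    _ ≤ n * Real.exp (-(α * n / 2)) := by
        have := pow_le_pow_of_le_one h0 hn hm
        simpa using this

theorem gN3 : G_N3 := by
  intro α₀ hα₀
  set n₁ : ℕ := ⌈8 / α₀ ^ 2⌉₊ with hn₁
  refine ⟨2 ^ n₁, one_le_pow₀ (by norm_num), ?_⟩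
  intro α hα n j h1 hj
  have hαp : 0 < α := lt_of_lt_of_le hα₀ hα
  have hn1 : (1 : ℝ) ≤ (n : ℝ) := by
    have : 1 ≤ n := by omega
    exact_mod_cast this
  have hnj : ((n - j : ℕ) : ℝ) = (n : ℝ) - j := by
    rw [Nat.cast_sub hj.le]
  have hj1 : (1 : ℝ) ≤ (j : ℝ) := by exact_mod_cast h1
  have hj2 : (j : ℝ) + 1 ≤ (n : ℝ) := by exact_mod_cast hj
  obtain ⟨hc1, hc2⟩ := choose_le n j h1 hj
  have hK : (1 : ℝ) ≤ (2 : ℝ) ^ n₁ := one_le_pow₀ (by norm_num)
  by_cases hn : n₁ ≤ n
  · -- large n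
    have h8 : 8 / α₀ ^ 2 ≤ (n : ℝ) := (Nat.le_ceil _).trans (by exact_mod_cast hn)
    have hsm : (n : ℝ) * Real.exp (-(α * n / 2)) ≤ 1 := by
      have hx : 0 ≤ α₀ * n / 2 := by positivity
      have hq := Real.quadratic_le_exp_of_nonneg hx
      have h9 : (n : ℝ) ≤ (α₀ * n / 2) ^ 2 / 2 := by
        rw [div_le_iff₀ (by positivity)] at h8
        nlinarith
      have h10 : (n : ℝ) ≤ Real.exp (α * n / 2) := by
        have h11 : Real.exp (α₀ * n / 2) ≤ Real.exp (α * n / 2) := by
          apply Real.exp_le_exp.mpr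
          have := mul_le_mul_of_nonneg_right hα (by linarith : (0 : ℝ) ≤ (n : ℝ))
          linarith
        linarith
      calc (n : ℝ) * Real.exp (-(α * n / 2)) ≤
            Real.exp (α * n / 2) * Real.exp (-(α * n / 2)) :=
            mul_le_mul_of_nonneg_right h10 (Real.exp_pos _).le
        _ = 1 := by rw [← Real.exp_add, add_neg_cancel, Real.exp_zero]
    have hfin : ((n - 1).choose (j - 1) : ℝ) * Real.exp (-(α * (j * (n - j : ℕ)))) ≤
        n * Real.exp (-(α * n / 2)) := by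
      by_cases hjn : j ≤ n - j
      · refine key α hαp n j h1 _ _ hc1 ?_ hsm
        have h12 : (n : ℝ) / 2 ≤ ((n - j : ℕ) : ℝ) := by
          rw [hnj]
          have : j + j ≤ n := by omega
          have h13 : (j : ℝ) + j ≤ n := by exact_mod_cast this
          linarith
        have := mul_le_mul_of_nonneg_left h12 (by linarith : (0 : ℝ) ≤ (j : ℝ))
        linarith
      · refine key α hαp n (n - j) (by omega) _ _ hc2 ?_ hsm
        have h12 : (n : ℝ) / 2 ≤ (j : ℝ) := by
          have : n ≤ j + j := by omega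
          have h13 : (n : ℝ) ≤ j + j := by exact_mod_cast this
          linarith
        have h14 : (0 : ℝ) ≤ ((n - j : ℕ) : ℝ) := Nat.cast_nonneg _
        have := mul_le_mul_of_nonneg_left h12 h14
        linarith
    refine hfin.trans ?_
    have h15 : (0 : ℝ) ≤ n * Real.exp (-(α * n / 2)) := by positivity
    have := mul_le_mul_of_nonneg_right hK h15
    rw [one_mul, ← mul_assoc] at this
    exact this
  · -- small n
    push Not at hn
    have hch : ((n - 1).choose (j - 1) : ℝ) ≤ 2 ^ n₁ := by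
      have h2 : (n - 1).choose (j - 1) ≤ 2 ^ n₁ :=
        (Nat.choose_le_two_pow (n - 1) (j - 1)).trans
          (Nat.pow_le_pow_right (by norm_num) (by omega))
      exact_mod_cast h2
    have hP : (n : ℝ) / 2 ≤ (j : ℝ) * ((n - j : ℕ) : ℝ) := by
      rw [hnj]
      nlinarith
    calc ((n - 1).choose (j - 1) : ℝ) * Real.exp (-(α * (j * (n - j : ℕ)))) ≤
          2 ^ n₁ * Real.exp (-(α * n / 2)) := by
          apply mul_le_mul hch _ (Real.exp_pos _).le (by positivity)
          apply Real.exp_le_exp.mpr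
          have := mul_le_mul_of_nonneg_left hP hαp.le
          linarith
      _ ≤ 2 ^ n₁ * n * Real.exp (-(α * n / 2)) := by
          apply mul_le_mul_of_nonneg_right _ (Real.exp_pos _).le
          have : (0 : ℝ) ≤ 2 ^ n₁ := by positivity
          nlinarith

end Pool.Agent.Helper22.EG
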